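import Pool.Agent.W2helper26.PR.Stm

/-!
# Project PR, piece LEVR: the least level is polynomially bounded
-/

set_option autoImplicit false

namespace Pool.Agent.W2helper12.PR

open Pool.Agent.W2helper26.PB Pool.Agent.W2helper26.PR
open Pool.Agent.NPC (pairBits)

lemma lev_succ (c₀ : ℕ) (i : Ix) (m : ℕ) :
    lev c₀ i (m + 1) = lev c₀ i m ^ (2 ^ 2 ^ (c₀ + 2 * i.1.length + i.2)) := by
  unfold lev
  rw [← pow_mul, Nat.add_mul, pow_add, one_mul]

lemma le_lev (c₀ : ℕ) (i : Ix) (m : ℕ) : m ≤ lev c₀ i m := by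
  unfold lev
  have h1 : m ≤ m * 2 ^ (c₀ + 2 * i.1.length + i.2) :=
    Nat.le_mul_of_pos_right m (by positivity)
  have h2 : m * 2 ^ (c₀ + 2 * i.1.length + i.2) < 2 ^ (m * 2 ^ (c₀ + 2 * i.1.length + i.2)) :=
    Nat.lt_two_pow_self
  have h3 : 2 ^ (m * 2 ^ (c₀ + 2 * i.1.length + i.2)) <
      2 ^ 2 ^ (m * 2 ^ (c₀ + 2 * i.1.length + i.2)) := Nat.lt_two_pow_self
  omega

lemma length_gam (c₀ : ℕ) (i : Ix) (m : ℕ) : (gam c₀ i m).length =
    lev c₀ i (m + 1) + m + (2 * i.1.length + 2 * i.2 + 3) := by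
  simp [gam, pairBits]
  have : (List.map (fun _ : Bool => 2) i.1).sum = 2 * i.1.length := by simp [mul_comm]
  omega

theorem p_levr : P_levr := by
  intro c₀ i
  set D : ℕ := 2 ^ 2 ^ (c₀ + 2 * i.1.length + i.2) with hD
  refine ⟨Polynomial.X ^ (D * D) + Polynomial.X +
    Polynomial.C (lev c₀ i 1 + (2 * i.1.length + 2 * i.2 + 3)), fun n => ?_⟩
  have hex : ∃ m, n ≤ lev c₀ i m := ⟨n, le_lev c₀ i n⟩
  classical
  refine ⟨Nat.find hex, Nat.find_spec hex, ?_⟩
  rw [Polynomial.eval_add, Polynomial.eval_add, Polynomial.eval_pow, Polynomial.eval_X,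
    Polynomial.eval_C, length_gam]
  rcases hm : Nat.find hex with _ | k
  · rw [zero_add]
    have := Nat.zero_le (n ^ (D * D))
    omega
  · have hk : lev c₀ i k < n := by
      have := Nat.find_min hex (m := k) (by omega)
      omega
    have h1 : lev c₀ i (k + 1 + 1) ≤ n ^ (D * D) := by
      rw [lev_succ, lev_succ, ← hD, ← pow_mul]
      exact Nat.pow_le_pow_left hk.le _
    have h2 := le_lev c₀ i k
    omega

end Pool.Agent.W2helper12.PR
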